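import Mathlib

/-!
# Small sets of small expansion in symmetric graphs: translates
-/

set_option autoImplicit false

open Finset
open scoped Classical

namespace Pool.Agent.R892.SE

variable {V : Type} [Fintype V]

/-- The number of edges of `G` with exactly one endpoint in `S`, counted as ordered pairs `(x, y)`
with `x ∈ S`, `y ∉ S`. -/
noncomputable def cut (G : SimpleGraph V) (S : Finset V) : ℕ :=
  (univ.filter fun p : V × V => p.1 ∈ S ∧ p.2 ∉ S ∧ G.Adj p.1 p.2).card

theorem cut_union (G : SimpleGraph V) (S T : Finset V) : cut G (S ∪ T) ≤ cut G S + cut G T := by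
  unfold cut
  refine le_trans (card_le_card ?_) (card_union_le _ _)
  intro p hp
  simp only [mem_filter, mem_univ, true_and, mem_union] at hp ⊢
  obtain ⟨h1, h2, h3⟩ := hp
  push Not at h2
  rcases h1 with h | h
  · exact Or.inl ⟨h, h2.1, h3⟩
  · exact Or.inr ⟨h, h2.2, h3⟩

/-- The translate of `T`. -/
noncomputable def pull {Γ : Type} (act : Γ → V → V) (g : Γ) (T : Finset V) : Finset V :=
  univ.filter fun u => act g u ∈ T

theorem cut_pull {Γ : Type} {act : Γ → V → V} {G : SimpleGraph V}
    (hG : ∀ g u v, G.Adj u v → G.Adj (act g u) (act g v)) (hinj : ∀ g, Function.Injective (act g))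
    (g : Γ) (T : Finset V) : cut G (pull act g T) ≤ cut G T := by
  unfold cut
  refine card_le_card_of_injOn (fun p => (act g p.1, act g p.2)) ?_ ?_
  · intro p hp
    simp only [pull, coe_filter, mem_filter, mem_univ, true_and, Set.mem_ofPred_eq] at hp ⊢
    exact ⟨hp.1, hp.2.1, hG g _ _ hp.2.2⟩
  · intro p _ q _ h
    simp only [Prod.mk.injEq] at h
    exact Prod.ext (hinj g h.1) (hinj g h.2)

theorem card_pull {Γ : Type} {act : Γ → V → V} (hinj : ∀ g, Function.Injective (act g))
    (g : Γ) (T : Finset V) : (pull act g T).card = T.card := by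
  have hb : Function.Bijective (act g) := Finite.injective_iff_bijective.1 (hinj g)
  unfold pull
  refine card_bij (fun u _ => act g u) (fun u hu => (mem_filter.1 hu).2)
    (fun _ _ _ _ h => hinj g h) fun w hw => ?_
  obtain ⟨u, hu⟩ := hb.2 w
  exact ⟨u, by rw [mem_filter]; exact ⟨mem_univ _, by rw [hu]; exact hw⟩, hu⟩

/-- Some translate of `T` has at most half of its points in `U`. -/
theorem exists_translate {Γ : Type} [Fintype Γ] [Nonempty Γ] {act : Γ → V → V}
    (hinj : ∀ g, Function.Injective (act g)) (T U : Finset V) (q : ℕ)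
    (hq : ∀ u, (univ.filter fun g => act g u ∈ T).card = q) (hU : 2 * U.card ≤ Fintype.card V) :
    ∃ g, 2 * (U ∩ pull act g T).card ≤ T.card := by
  by_contra hcon
  push Not at hcon
  have h1 : ∑ g : Γ, (U ∩ pull act g T).card = U.card * q := by
    have h2 : ∀ g : Γ, (U ∩ pull act g T).card = ∑ u ∈ U, if act g u ∈ T then 1 else 0 := by
      intro g
      rw [← sum_filter, sum_const, smul_eq_mul, mul_one]
      congr 1
      ext u
      simp [pull]
    rw [sum_congr rfl fun g _ => h2 g, sum_comm]
    rw [card_eq_sum_ones, sum_mul]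
    refine sum_congr rfl fun u _ => ?_
    rw [← sum_filter, sum_const, smul_eq_mul, mul_one, hq u, one_mul]
  have h3 : Fintype.card V * q = Fintype.card Γ * T.card := by
    have h4 : ∑ g : Γ, (univ ∩ pull act g T).card = (univ : Finset V).card * q := by
      have h2 : ∀ g : Γ, (univ ∩ pull act g T).card = ∑ u : V, if act g u ∈ T then 1 else 0 := by
        intro g
        rw [← sum_filter, sum_const, smul_eq_mul, mul_one]
        congr 1
        ext u
        simp [pull]
      rw [sum_congr rfl fun g _ => h2 g, sum_comm]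
      rw [card_eq_sum_ones, sum_mul]
      refine sum_congr rfl fun u _ => ?_
      rw [← sum_filter, sum_const, smul_eq_mul, mul_one, hq u, one_mul]
    rw [card_univ] at h4
    rw [← h4]
    simp only [univ_inter, card_pull hinj, sum_const, card_univ, smul_eq_mul]
  have h5 : ∑ g : Γ, T.card < ∑ g : Γ, 2 * (U ∩ pull act g T).card :=
    sum_lt_sum_of_nonempty univ_nonempty fun g _ => hcon g
  rw [← mul_sum, h1, sum_const, card_univ, smul_eq_mul, ← h3] at h5
  nlinarith [Nat.mul_le_mul_right q hU]

/-- Unions of translates. -/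
theorem greedy {Γ : Type} [Fintype Γ] [Nonempty Γ] {act : Γ → V → V} {G : SimpleGraph V}
    (hG : ∀ g u v, G.Adj u v → G.Adj (act g u) (act g v)) (hinj : ∀ g, Function.Injective (act g))
    (T : Finset V) (q : ℕ) (hq : ∀ u, (univ.filter fun g => act g u ∈ T).card = q) (k : ℕ)
    (hk : 2 * k ≤ Fintype.card V) (hT : 0 < T.card) (t : ℕ) :
    ∃ U : Finset V, (k ≤ U.card ∨ t * T.card ≤ 2 * U.card) ∧ U.card < k + T.card ∧
      cut G U ≤ t * cut G T := by
  induction t with
  | zero => exact ⟨∅, Or.inr (by simp), by rw [card_empty]; omega, by simp [cut]⟩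
  | succ t ih =>
    obtain ⟨U, h1, h2, h3⟩ := ih
    by_cases hkU : k ≤ U.card
    · exact ⟨U, Or.inl hkU, h2, h3.trans (Nat.mul_le_mul_right _ (Nat.le_succ t))⟩
    · obtain ⟨g, hg⟩ := exists_translate hinj T U q hq (by omega)
      have h1' := h1.resolve_left hkU
      have hcard := card_union_add_card_inter U (pull act g T)
      rw [card_pull hinj] at hcard
      refine ⟨U ∪ pull act g T, Or.inr ?_, ?_, ?_⟩
      · rw [Nat.succ_mul]
        omega
      · omega
      · rw [Nat.succ_mul]
        exact (cut_union _ _ _).trans (Nat.add_le_add h3 (cut_pull hG hinj g T))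

theorem cut_trim {G : SimpleGraph V} {d : ℕ} (hd : ∀ v, (univ.filter fun w => G.Adj v w).card = d)
    {S U : Finset V} (hS : S ⊆ U) : cut G S ≤ cut G U + d * (U.card - S.card) := by
  have h1 : (U \ S).card = U.card - S.card := by rw [card_sdiff_of_subset hS]
  have h2 : (univ.filter fun p : V × V => p.2 ∈ U \ S ∧ G.Adj p.2 p.1).card = d * (U \ S).card := by
    have h3 : (univ.filter fun p : V × V => p.2 ∈ U \ S ∧ G.Adj p.2 p.1) =
        (U \ S).biUnion fun v => (univ.filter fun w => G.Adj v w).image fun w => (w, v) := by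
      ext ⟨a, b⟩
      simp only [mem_filter, mem_univ, true_and, mem_biUnion, mem_image, Prod.mk.injEq]
      constructor
      · rintro ⟨h4, h5⟩
        exact ⟨b, h4, a, h5, rfl, rfl⟩
      · rintro ⟨v, h4, w, h5, rfl, rfl⟩
        exact ⟨h4, h5⟩
    rw [h3, card_biUnion]
    · rw [sum_congr rfl fun v _ => by
        rw [card_image_of_injective _ fun a b h => (Prod.mk.injEq _ _ _ _ ▸ h : _ ∧ _).1, hd v]]
      rw [sum_const, smul_eq_mul, mul_comm]
    · intro a _ b _ hab
      rw [Function.onFun, disjoint_left]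
      intro p hp hp'
      simp only [mem_image] at hp hp'
      obtain ⟨_, _, rfl⟩ := hp
      obtain ⟨_, _, h⟩ := hp'
      simp only [Prod.mk.injEq] at h
      exact hab h.2.symm
  rw [← h1, ← h2]
  unfold cut
  refine le_trans (card_le_card ?_) (card_union_le _ _)
  intro p hp
  simp only [mem_filter, mem_univ, true_and, mem_union, mem_sdiff] at hp ⊢
  obtain ⟨h4, h5, h6⟩ := hp
  by_cases h7 : p.2 ∈ U
  · exact Or.inr ⟨⟨h7, h5⟩, h6.symm⟩
  · exact Or.inl ⟨hS h4, h7, h6⟩

/-- From a set `T` all of whose points are covered equally often by the translates to sets of all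
sizes up to one half. -/
theorem spread {Γ : Type} [Fintype Γ] [Nonempty Γ] {act : Γ → V → V} {G : SimpleGraph V} {d : ℕ}
    (hd : ∀ v, (univ.filter fun w => G.Adj v w).card = d)
    (hG : ∀ g u v, G.Adj u v → G.Adj (act g u) (act g v)) (hinj : ∀ g, Function.Injective (act g))
    (T : Finset V) (q : ℕ) (hq : ∀ u, (univ.filter fun g => act g u ∈ T).card = q) (k : ℕ)
    (hk : 2 * k ≤ Fintype.card V) (hT : 0 < T.card) :
    ∃ S : Finset V, S.card = k ∧ cut G S * T.card ≤ (2 * k + T.card) * cut G T +
      d * T.card * T.card := by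
  obtain ⟨U, h1, h2, h3⟩ := greedy hG hinj T q hq k hk hT (2 * k / T.card + 1)
  have h4 : k ≤ U.card := by
    rcases h1 with h | h
    · exact h
    · have h5 := Nat.lt_div_mul_add hT (a := 2 * k)
      rw [Nat.add_mul, one_mul] at h
      omega
  obtain ⟨S, hS, hSk⟩ := exists_subset_card_eq h4
  refine ⟨S, hSk, ?_⟩
  have h5 := cut_trim hd hS
  have h6 : d * (U.card - S.card) ≤ d * T.card := Nat.mul_le_mul_left _ (by omega)
  have h7 : cut G S ≤ (2 * k / T.card + 1) * cut G T + d * T.card := by omega
  calc cut G S * T.card ≤ ((2 * k / T.card + 1) * cut G T + d * T.card) * T.card :=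
        Nat.mul_le_mul_right _ h7
    _ = (2 * k / T.card * T.card + T.card) * cut G T + d * T.card * T.card := by ring
    _ ≤ (2 * k + T.card) * cut G T + d * T.card * T.card := by
        refine Nat.add_le_add_right (Nat.mul_le_mul_right _ (Nat.add_le_add_right ?_ _)) _
        exact Nat.div_mul_le_self _ _

end Pool.Agent.R892.SE
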