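import Pool.Agent.R892.SE.Base

/-!
# Small almost invariant sets in abelian groups, and the coarea argument
-/

set_option autoImplicit false

open Finset
open scoped Classical

namespace Pool.Agent.R892.SE

section box

variable {A : Type} [AddCommGroup A] [Fintype A]

theorem sum_shift (f : A → ℕ) (a : A) : ∑ x, f (x + a) = ∑ x, f x :=
  Equiv.sum_comp (Equiv.addRight a) f

theorem sum_tsub_le {ι : Type} (s : Finset ι) (a b : ι → ℕ) :
    (∑ j ∈ s, a j) - ∑ j ∈ s, b j ≤ ∑ j ∈ s, (a j - b j) := by
  rw [tsub_le_iff_right, ← sum_add_distrib]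
  exact sum_le_sum fun j _ => by omega

/-- A function which is almost invariant under the elements of `W`. -/
theorem exists_box (L : ℕ) (hL : 1 ≤ L) (W : Finset A) : ∃ f : A → ℕ,
    ∑ x, f x = L ^ W.card ∧ ∀ w ∈ W, L * ∑ x, (f x - f (x + w)) ≤ L ^ W.card := by
  induction W using Finset.induction_on with
  | empty =>
    refine ⟨fun x => if x = 0 then 1 else 0, by simp, by simp⟩
  | insert w0 W hw0 ih =>
    obtain ⟨f, hf1, hf2⟩ := ih
    have hsum : ∑ x, ∑ j ∈ range L, f (x - j • w0) = L ^ (W.card + 1) := by
      rw [sum_comm]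
      have h1 : ∀ j ∈ range L, ∑ x, f (x - j • w0) = L ^ W.card := by
        intro j _
        rw [← hf1]
        simp only [sub_eq_add_neg]
        exact sum_shift f _
      rw [sum_congr rfl h1, sum_const, card_range, smul_eq_mul, pow_succ, mul_comm]
    rw [card_insert_of_notMem hw0]
    refine ⟨fun x => ∑ j ∈ range L, f (x - j • w0), hsum, ?_⟩
    intro w hw
    rcases mem_insert.1 hw with rfl | hw
    · rw [pow_succ, mul_comm]
      refine Nat.mul_le_mul_right _ ?_
      obtain ⟨l, rfl⟩ : ∃ l, L = l + 1 := ⟨L - 1, by omega⟩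
      calc ∑ x, ((∑ j ∈ range (l + 1), f (x - j • w)) - ∑ j ∈ range (l + 1), f (x + w - j • w))
          ≤ ∑ x, f (x - l • w) := by
            refine sum_le_sum fun x _ => ?_
            rw [sum_range_succ, sum_range_succ']
            have h2 : ∀ j, f (x + w - (j + 1) • w) = f (x - j • w) := by
              intro j
              congr 1
              rw [succ_nsmul]
              abel
            rw [sum_congr rfl fun j _ => h2 j]
            omega
        _ = (l + 1) ^ W.card := by
            rw [← hf1]
            simp only [sub_eq_add_neg]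
            exact sum_shift f _
    · rw [pow_succ]
      calc L * ∑ x, ((∑ j ∈ range L, f (x - j • w0)) - ∑ j ∈ range L, f (x + w - j • w0))
          ≤ L * ∑ x, ∑ j ∈ range L, (f (x - j • w0) - f (x + w - j • w0)) := by
            refine Nat.mul_le_mul_left _ (sum_le_sum fun x _ => sum_tsub_le _ _ _)
        _ = ∑ j ∈ range L, L * ∑ x, (f x - f (x + w)) := by
            rw [sum_comm, mul_sum]
            refine sum_congr rfl fun j _ => ?_
            congr 1
            have h3 : ∀ x, f (x + w - j • w0) = f (x - j • w0 + w) := by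
              intro x
              congr 1
              abel
            rw [sum_congr rfl fun x _ => by rw [h3 x]]
            simp only [sub_eq_add_neg]
            exact sum_shift (fun x => f x - f (x + w)) _
        _ ≤ ∑ j ∈ range L, L ^ W.card := sum_le_sum fun j _ => hf2 w hw
        _ = L ^ W.card * L := by rw [sum_const, card_range, smul_eq_mul, mul_comm]

end box

section coarea

variable {V : Type} [Fintype V]

theorem coarea {G : SimpleGraph V} {d L : ℕ} (F : V → ℕ) (hF : 0 < ∑ v, F v)
    (h : L * ∑ p : V × V, (if G.Adj p.1 p.2 then F p.1 - F p.2 else 0) ≤ d * ∑ v, F v) :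
    ∃ j, 0 < j ∧ 0 < (univ.filter fun v => j ≤ F v).card ∧
      L * cut G (univ.filter fun v => j ≤ F v) ≤ d * (univ.filter fun v => j ≤ F v).card := by
  obtain ⟨M, hM⟩ : ∃ M, ∀ v, F v ≤ M := ⟨∑ v, F v, fun v =>
    single_le_sum (f := F) (fun _ _ => Nat.zero_le _) (mem_univ v)⟩
  by_contra hcon
  push Not at hcon
  have h1 : ∀ j ∈ range M, d * (univ.filter fun v => j + 1 ≤ F v).card ≤
      L * cut G (univ.filter fun v => j + 1 ≤ F v) := by
    intro j _
    rcases Nat.eq_zero_or_pos (univ.filter fun v => j + 1 ≤ F v).card with h0 | h0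
    · rw [h0]
      simp
    · exact (hcon (j + 1) (Nat.succ_pos j) h0).le
  have hsum : ∑ j ∈ range M, (univ.filter fun v => j + 1 ≤ F v).card = ∑ v, F v := by
    simp only [card_filter]
    rw [sum_comm]
    refine sum_congr rfl fun v _ => ?_
    rw [← card_filter]
    have : (range M).filter (fun j => j + 1 ≤ F v) = range (F v) := by
      ext j
      simp only [mem_filter, mem_range]
      have := hM v
      omega
    rw [this, card_range]
  have hcut : ∑ j ∈ range M, cut G (univ.filter fun v => j + 1 ≤ F v) =
      ∑ p : V × V, (if G.Adj p.1 p.2 then F p.1 - F p.2 else 0) := by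
    simp only [cut, card_filter, mem_filter, mem_univ, true_and]
    rw [sum_comm]
    refine sum_congr rfl fun p _ => ?_
    rw [← card_filter]
    by_cases hp : G.Adj p.1 p.2
    · rw [if_pos hp]
      have : (range M).filter (fun j => j + 1 ≤ F p.1 ∧ ¬ j + 1 ≤ F p.2 ∧ G.Adj p.1 p.2) =
          Ico (F p.2) (F p.1) := by
        ext j
        simp only [mem_filter, mem_range, mem_Ico, hp, and_true]
        have := hM p.1
        omega
      rw [this, Nat.card_Ico]
    · rw [if_neg hp, card_eq_zero, filter_eq_empty_iff]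
      intro j _ h3
      exact hp h3.2.2
  obtain ⟨v0, hv0⟩ : ∃ v, 0 < F v := by
    by_contra h0
    push Not at h0
    exact hF.ne' (sum_eq_zero fun v _ => Nat.le_zero.1 (h0 v))
  have hlt : ∑ j ∈ range M, d * (univ.filter fun v => j + 1 ≤ F v).card <
      ∑ j ∈ range M, L * cut G (univ.filter fun v => j + 1 ≤ F v) := by
    refine sum_lt_sum h1 ⟨0, ?_, ?_⟩
    · rw [mem_range]
      exact hv0.trans_le (hM v0)
    · refine hcon (0 + 1) one_pos ?_
      exact card_pos.2 ⟨v0, by rw [mem_filter]; exact ⟨mem_univ _, hv0⟩⟩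
  rw [← mul_sum, ← mul_sum, hsum, hcut] at hlt
  exact absurd h (not_le.2 hlt)

end coarea

end Pool.Agent.R892.SE
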