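import Pool.Agent.R892.SE.Box

/-!
# Graphs with a free abelian group of automorphisms
-/

set_option autoImplicit false
set_option linter.unusedSectionVars false

open Finset
open scoped Classical

namespace Pool.Agent.R892.SE

variable {V : Type} [Fintype V]

/-- The translation coordinate of a free action. -/
theorem exists_coord {A : Type} [AddCommGroup A] [AddAction A V]
    (hfree : ∀ (a : A) (v : V), a +ᵥ v = v → a = 0) : ∃ g : V → A, ∀ a v, g (a +ᵥ v) = a + g v := by
  let o : V → V := fun v => (Quotient.mk (AddAction.orbitRel A V) v).out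
  have ho : ∀ v, ∃ a : A, a +ᵥ o v = v := by
    intro v
    have h1 : (AddAction.orbitRel A V).r (o v) v := Quotient.mk_out (s := AddAction.orbitRel A V) v
    have h2 := (AddAction.orbitRel A V).symm h1
    exact h2
  have ho2 : ∀ (a : A) v, o (a +ᵥ v) = o v := by
    intro a v
    show (Quotient.mk (AddAction.orbitRel A V) (a +ᵥ v)).out = _
    congr 1
    exact Quotient.sound (s := AddAction.orbitRel A V) ⟨a, rfl⟩
  choose g hg using ho
  refine ⟨g, fun a v => ?_⟩
  have h1 := hg (a +ᵥ v)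
  rw [ho2] at h1
  have h2 : (g (a +ᵥ v)) +ᵥ o v = (a + g v) +ᵥ o v := by
    rw [h1, add_vadd, hg]
  have h3 : (-(a + g v) + g (a +ᵥ v)) +ᵥ o v = o v := by
    rw [add_vadd, h2, neg_vadd_vadd]
  have h4 := hfree _ _ h3
  rw [neg_add_eq_zero] at h4
  exact h4.symm

theorem abelian_core {A : Type} [AddCommGroup A] [Fintype A] [AddAction A V]
    (hfree : ∀ (a : A) (v : V), a +ᵥ v = v → a = 0) {G : SimpleGraph V} {d : ℕ}
    (hd : ∀ v, (univ.filter fun w => G.Adj v w).card = d)
    (hG : ∀ (a : A) (u v : V), G.Adj u v → G.Adj (a +ᵥ u) (a +ᵥ v)) (hV : 0 < Fintype.card V)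
    (hd0 : 0 < d) (L : ℕ) (hL : 1 ≤ L) :
    ∃ r : ℕ, 0 < r ∧ r * Fintype.card A ≤ d * Fintype.card V ∧ ∃ T : Finset V, 0 < T.card ∧
      T.card * Fintype.card A ≤ Fintype.card V * L ^ r ∧ L * cut G T ≤ d * T.card ∧
      ∃ q : ℕ, ∀ u : V, (univ.filter fun a : A => a +ᵥ u ∈ T).card = q := by
  obtain ⟨g, hg⟩ := exists_coord hfree
  obtain ⟨P, hP⟩ : ∃ P : Finset (V × V), P = univ.filter fun p : V × V => G.Adj p.1 p.2 :=
    ⟨_, rfl⟩
  have hPmem : ∀ p : V × V, p ∈ P ↔ G.Adj p.1 p.2 := by
    intro p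
    rw [hP, mem_filter]
    simp
  have hPcard : P.card = d * Fintype.card V := by
    have h1 : P.card = ∑ v : V, (univ.filter fun w => G.Adj v w).card := by
      rw [hP, card_filter, Fintype.sum_prod_type]
      refine sum_congr rfl fun v _ => ?_
      rw [card_filter]
    rw [h1, sum_congr rfl fun v _ => hd v, sum_const, card_univ, smul_eq_mul, mul_comm]
  obtain ⟨W, hW⟩ : ∃ W : Finset A, W = P.image fun p => g p.2 - g p.1 := ⟨_, rfl⟩
  obtain ⟨v0⟩ : Nonempty V := Fintype.card_pos_iff.1 hV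
  have hPne : P.Nonempty := by
    rw [← card_pos, hPcard]
    positivity
  have hWcard : W.card * Fintype.card A ≤ P.card := by
    rw [hW, card_eq_sum_card_image (fun p => g p.2 - g p.1) P]
    rw [← smul_eq_mul]
    refine card_nsmul_le_sum _ _ _ fun w hw => ?_
    obtain ⟨p, hp, hpw⟩ := mem_image.1 hw
    rw [← card_univ]
    refine card_le_card_of_injOn (fun a : A => (a +ᵥ p.1, a +ᵥ p.2)) ?_ ?_
    · intro a _
      simp only [coe_filter, Set.mem_ofPred_eq]
      refine ⟨(hPmem _).2 (hG a _ _ ((hPmem p).1 hp)), ?_⟩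
      rw [hg, hg, ← hpw]
      abel
    · intro a _ b _ hab
      simp only [Prod.mk.injEq] at hab
      have h1 := congrArg g hab.1
      rw [hg, hg] at h1
      exact add_right_cancel h1
  obtain ⟨f, hf1, hf2⟩ := exists_box L hL W
  have hA0 : 0 < Fintype.card A := Fintype.card_pos
  have hsumF : Fintype.card A * ∑ v, f (g v) = Fintype.card V * L ^ W.card := by
    have h1 : ∀ v : V, ∑ a : A, f (g (a +ᵥ v)) = L ^ W.card := by
      intro v
      rw [← hf1, ← sum_shift f (g v)]
      exact sum_congr rfl fun a _ => by rw [hg]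
    have h2 : ∀ a : A, ∑ v : V, f (g (a +ᵥ v)) = ∑ v, f (g v) := fun a =>
      Equiv.sum_comp (AddAction.toPerm a) fun v => f (g v)
    calc Fintype.card A * ∑ v, f (g v) = ∑ a : A, ∑ v : V, f (g (a +ᵥ v)) := by
          rw [sum_congr rfl fun a _ => h2 a, sum_const, card_univ, smul_eq_mul]
      _ = ∑ v : V, ∑ a : A, f (g (a +ᵥ v)) := sum_comm
      _ = Fintype.card V * L ^ W.card := by
          rw [sum_congr rfl fun v _ => h1 v, sum_const, card_univ, smul_eq_mul]
  have hF0 : 0 < ∑ v, f (g v) := by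
    refine Nat.pos_of_mul_pos_left (a := Fintype.card A) ?_
    rw [hsumF]
    positivity
  have hcut : L * ∑ p : V × V, (if G.Adj p.1 p.2 then f (g p.1) - f (g p.2) else 0) ≤
      d * ∑ v, f (g v) := by
    have h0 : ∑ p : V × V, (if G.Adj p.1 p.2 then f (g p.1) - f (g p.2) else 0) =
        ∑ p ∈ P, (f (g p.1) - f (g p.2)) := by rw [hP, sum_filter]
    rw [h0]
    have h1 : ∀ p ∈ P, L * ∑ a : A, (f (g (a +ᵥ p.1)) - f (g (a +ᵥ p.2))) ≤ L ^ W.card := by
      intro p hp
      have hw : g p.2 - g p.1 ∈ W := by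
        rw [hW]
        exact mem_image_of_mem (fun p : V × V => g p.2 - g p.1) hp
      refine le_trans (le_of_eq ?_) (hf2 _ hw)
      congr 1
      rw [← sum_shift (fun x => f x - f (x + (g p.2 - g p.1))) (g p.1)]
      refine sum_congr rfl fun a _ => ?_
      rw [hg, hg]
      congr 2
      abel
    have h2 : ∀ a : A, ∑ p ∈ P, (f (g (a +ᵥ p.1)) - f (g (a +ᵥ p.2))) =
        ∑ p ∈ P, (f (g p.1) - f (g p.2)) := by
      intro a
      refine sum_bij' (fun p _ => (a +ᵥ p.1, a +ᵥ p.2)) (fun p _ => (-a +ᵥ p.1, -a +ᵥ p.2))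
        ?_ ?_ ?_ ?_ ?_
      · intro p hp
        exact (hPmem _).2 (hG a _ _ ((hPmem p).1 hp))
      · intro p hp
        exact (hPmem _).2 (hG (-a) _ _ ((hPmem p).1 hp))
      · intro p _
        simp
      · intro p _
        simp
      · intro p _
        rfl
    refine Nat.le_of_mul_le_mul_left (c := Fintype.card A) ?_ hA0
    calc Fintype.card A * (L * ∑ p ∈ P, (f (g p.1) - f (g p.2)))
        = L * ∑ a : A, ∑ p ∈ P, (f (g (a +ᵥ p.1)) - f (g (a +ᵥ p.2))) := by
          rw [sum_congr rfl fun a _ => h2 a, sum_const, card_univ, smul_eq_mul]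
          ring
      _ = ∑ p ∈ P, L * ∑ a : A, (f (g (a +ᵥ p.1)) - f (g (a +ᵥ p.2))) := by
          rw [sum_comm, mul_sum]
      _ ≤ ∑ p ∈ P, L ^ W.card := sum_le_sum h1
      _ = d * (Fintype.card V * L ^ W.card) := by
          rw [sum_const, smul_eq_mul, hPcard]
          ring
      _ = Fintype.card A * (d * ∑ v, f (g v)) := by
          rw [← hsumF]
          ring
  obtain ⟨j, hj, hT0, hT⟩ := coarea (fun v => f (g v)) hF0 hcut
  have hlev : ∀ u : V, (univ.filter fun a : A => j ≤ f (g (a +ᵥ u))).card =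
      (univ.filter fun x : A => j ≤ f x).card := by
    intro u
    rw [card_filter, card_filter, ← sum_shift (fun x => if j ≤ f x then 1 else 0) (g u)]
    refine sum_congr rfl fun a _ => ?_
    rw [hg]
  refine ⟨W.card, ?_, hPcard ▸ hWcard, univ.filter fun v => j ≤ f (g v), hT0, ?_, hT,
    (univ.filter fun x : A => j ≤ f x).card, fun u => ?_⟩
  · rw [hW, card_pos]
    exact hPne.image _
  · have h1 : (univ.filter fun v => j ≤ f (g v)).card ≤ ∑ v, f (g v) := by
      rw [card_filter]
      refine sum_le_sum fun v _ => ?_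
      split_ifs with h
      · omega
      · exact Nat.zero_le _
    calc (univ.filter fun v => j ≤ f (g v)).card * Fintype.card A ≤
          (∑ v, f (g v)) * Fintype.card A := Nat.mul_le_mul_right _ h1
      _ = Fintype.card V * L ^ W.card := by rw [mul_comm, hsumF]
  · rw [← hlev u]
    congr 1
    ext a
    simp

/-- Graphs with a free abelian group of automorphisms with few orbits of edges have sets of all
sizes of small expansion. -/
theorem abelian_final {η δ : ℝ} (hη : 0 < η) (hη1 : η ≤ 1) (hδ : 0 < δ) (hδ2 : δ ≤ 1 / 2)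
    {A : Type} [AddCommGroup A] [Fintype A] [AddAction A V]
    (hfree : ∀ (a : A) (v : V), a +ᵥ v = v → a = 0) {G : SimpleGraph V} {d : ℕ}
    (hd : ∀ v, (univ.filter fun w => G.Adj v w).card = d)
    (hG : ∀ (a : A) (u v : V), G.Adj u v → G.Adj (a +ᵥ u) (a +ᵥ v)) (hV : 0 < Fintype.card V)
    (hd0 : 0 < d)
    (hlog : 2 * (d * Fintype.card V) * Real.log (5 / (δ * η)) ≤
      Fintype.card A * Real.log (Fintype.card A))
    {k : ℕ} (hk1 : δ * Fintype.card V ≤ k) (hk2 : 2 * k ≤ Fintype.card V) :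
    ∃ S : Finset V, S.card = k ∧ (cut G S : ℝ) ≤ η * (d * k) := by
  obtain ⟨L, hL⟩ : ∃ L : ℕ, L = ⌈4 / (δ * η)⌉₊ := ⟨_, rfl⟩
  have hδη : 0 < δ * η := by positivity
  have hδη1 : δ * η ≤ 1 / 2 := by nlinarith
  have hL1 : 4 / (δ * η) ≤ L := by rw [hL]; exact Nat.le_ceil _
  have hL2 : (L : ℝ) ≤ 5 / (δ * η) := by
    have h1 : (L : ℝ) < 4 / (δ * η) + 1 := by
      rw [hL]
      exact Nat.ceil_lt_add_one (by positivity)
    have h2 : 1 ≤ 1 / (δ * η) := by
      rw [le_div_iff₀ hδη]
      linarith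
    have h3 : 5 / (δ * η) = 4 / (δ * η) + 1 / (δ * η) := by ring
    linarith
  have hL8 : (8 : ℝ) ≤ L := by
    refine le_trans ?_ hL1
    rw [le_div_iff₀ hδη]
    linarith
  have hL0 : (0 : ℝ) < L := by linarith
  have hLn : 1 ≤ L := by exact_mod_cast (by linarith : (1 : ℝ) ≤ L)
  obtain ⟨r, hr, hrA, T, hT0, hTA, hcut, q, hq⟩ := abelian_core hfree hd hG hV hd0 L hLn
  have hA0 : 0 < Fintype.card A := Fintype.card_pos
  have hAr : (0 : ℝ) < Fintype.card A := by exact_mod_cast hA0
  have hVr : (0 : ℝ) < Fintype.card V := by exact_mod_cast hV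
  have hpow : ((L : ℝ) ^ r) ^ 2 ≤ Fintype.card A := by
    have h1 : 2 * (r : ℝ) * Real.log L ≤ Real.log (Fintype.card A) := by
      have h2 : Real.log L ≤ Real.log (5 / (δ * η)) := Real.log_le_log hL0 hL2
      have h3 : 0 ≤ Real.log (5 / (δ * η)) := (Real.log_nonneg (by linarith)).trans h2
      have h4 : (r : ℝ) * Fintype.card A ≤ d * Fintype.card V := by exact_mod_cast hrA
      have h5 : (2 * (r : ℝ) * Real.log L) * Fintype.card A ≤
          Real.log (Fintype.card A) * Fintype.card A := by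
        calc (2 * (r : ℝ) * Real.log L) * Fintype.card A =
              2 * ((r : ℝ) * Fintype.card A) * Real.log L := by ring
          _ ≤ 2 * ((r : ℝ) * Fintype.card A) * Real.log (5 / (δ * η)) :=
              mul_le_mul_of_nonneg_left h2 (by positivity)
          _ ≤ 2 * (d * Fintype.card V) * Real.log (5 / (δ * η)) :=
              mul_le_mul_of_nonneg_right (by linarith) h3
          _ ≤ Real.log (Fintype.card A) * Fintype.card A := by
              rw [mul_comm (Real.log _)]
              exact hlog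
      exact le_of_mul_le_mul_right h5 hAr
    rw [← pow_mul, ← Real.log_le_log_iff (by positivity) hAr, Real.log_pow]
    push_cast
    linarith
  have hLr : (L : ℝ) ≤ (L : ℝ) ^ r := le_self_pow₀ (by linarith) hr.ne'
  have hT0r : (0 : ℝ) < T.card := by exact_mod_cast hT0
  have hTL : (T.card : ℝ) * L ≤ Fintype.card V := by
    have h1 : (T.card : ℝ) * Fintype.card A ≤ Fintype.card V * (L : ℝ) ^ r := by exact_mod_cast hTA
    have h2 : (T.card : ℝ) * ((L : ℝ) ^ r) ^ 2 ≤ Fintype.card V * (L : ℝ) ^ r :=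
      (mul_le_mul_of_nonneg_left hpow hT0r.le).trans h1
    have h3 : (0 : ℝ) < (L : ℝ) ^ r := by positivity
    have h4 : (T.card : ℝ) * (L : ℝ) ^ r ≤ Fintype.card V := by
      refine le_of_mul_le_mul_right ?_ h3
      calc (T.card : ℝ) * (L : ℝ) ^ r * (L : ℝ) ^ r = (T.card : ℝ) * ((L : ℝ) ^ r) ^ 2 := by ring
        _ ≤ _ := h2
    exact (mul_le_mul_of_nonneg_left hLr hT0r.le).trans h4
  obtain ⟨S, hSk, hS⟩ := spread (act := fun (a : A) (v : V) => a +ᵥ v) hd hG
    (fun a u v h => by
      have := congrArg (fun x => -a +ᵥ x) h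
      simpa using this) T q hq k hk2 hT0
  refine ⟨S, hSk, ?_⟩
  have hSr : (cut G S : ℝ) * T.card ≤ (2 * k + T.card) * cut G T + d * T.card * T.card := by
    exact_mod_cast hS
  have hcr : (L : ℝ) * cut G T ≤ d * T.card := by exact_mod_cast hcut
  have hdr : (0 : ℝ) < d := by exact_mod_cast hd0
  have hk0 : (0 : ℝ) ≤ k := Nat.cast_nonneg k
  have h1 : (L : ℝ) * cut G S ≤ d * (2 * k + T.card + L * T.card) := by
    refine le_of_mul_le_mul_right ?_ hT0r
    calc (L : ℝ) * cut G S * T.card = L * (cut G S * T.card) := by ring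
      _ ≤ L * ((2 * k + T.card) * cut G T + d * T.card * T.card) :=
          mul_le_mul_of_nonneg_left hSr hL0.le
      _ = (2 * k + T.card) * (L * cut G T) + d * (L * T.card) * T.card := by ring
      _ ≤ (2 * k + T.card) * (d * T.card) + d * (L * T.card) * T.card := by
          have := mul_le_mul_of_nonneg_left hcr (by positivity : (0 : ℝ) ≤ 2 * k + T.card)
          linarith
      _ = d * (2 * k + T.card + L * T.card) * T.card := by ring
  have h2 : (T.card : ℝ) ≤ Fintype.card V / 8 := by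
    rw [le_div_iff₀ (by norm_num)]
    refine le_trans ?_ hTL
    exact mul_le_mul_of_nonneg_left hL8 hT0r.le
  have hk2r : 2 * (k : ℝ) ≤ Fintype.card V := by exact_mod_cast hk2
  have h3 : (L : ℝ) * cut G S ≤ d * (3 * Fintype.card V) := by
    refine h1.trans (mul_le_mul_of_nonneg_left ?_ hdr.le)
    linarith [mul_comm (T.card : ℝ) L]
  have h4 : 4 * (cut G S : ℝ) ≤ (δ * η) * (L * cut G S) := by
    rw [div_le_iff₀ hδη] at hL1
    calc 4 * (cut G S : ℝ) ≤ (L * (δ * η)) * cut G S :=
          mul_le_mul_of_nonneg_right hL1 (Nat.cast_nonneg _)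
      _ = (δ * η) * (L * cut G S) := by ring
  have h5 : (δ * η) * (L * cut G S) ≤ (δ * η) * (d * (3 * Fintype.card V)) :=
    mul_le_mul_of_nonneg_left h3 hδη.le
  have h6 : (δ * η) * (d * (3 * Fintype.card V)) ≤ 3 * (η * (d * k)) := by
    calc (δ * η) * (d * (3 * Fintype.card V)) = 3 * (η * (d * (δ * Fintype.card V))) := by ring
      _ ≤ 3 * (η * (d * k)) := by
          refine mul_le_mul_of_nonneg_left ?_ (by norm_num)
          refine mul_le_mul_of_nonneg_left ?_ hη.le
          exact mul_le_mul_of_nonneg_left hk1 hdr.le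
  have h7 : 0 ≤ η * (d * k) := by positivity
  linarith

/-- Vertex-transitive graphs: sets of all sizes from one set. -/
theorem transitive_spread {G : SimpleGraph V} {d : ℕ}
    (hd : ∀ v, (univ.filter fun w => G.Adj v w).card = d)
    (htr : ∀ u v : V, ∃ e : G ≃g G, e u = v) (T : Finset V) (hT : T.Nonempty) {k : ℕ}
    (hk : 2 * k ≤ Fintype.card V) :
    ∃ S : Finset V, S.card = k ∧ cut G S * T.card ≤ (2 * k + T.card) * cut G T +
      d * T.card * T.card := by
  have hfin : Finite (G ≃g G) := Finite.of_injective (fun e : G ≃g G => (e : V → V))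
    DFunLike.coe_injective
  let _ : Fintype (G ≃g G) := Fintype.ofFinite _
  obtain ⟨v0, hv0⟩ := hT
  refine spread (act := fun (e : G ≃g G) (v : V) => e v) hd (fun e u v h => e.map_rel_iff.2 h)
    (fun e => e.injective) T (univ.filter fun e : G ≃g G => e v0 ∈ T).card (fun u => ?_) k hk
    (card_pos.2 ⟨v0, hv0⟩)
  obtain ⟨h, hh⟩ := htr v0 u
  rw [card_filter, card_filter]
  rw [← Equiv.sum_comp (Equiv.mk (fun e : G ≃g G => h.trans e) (fun e => h.symm.trans e)
    (fun e => by ext x; simp) (fun e => by ext x; simp)) fun e : G ≃g G => if e v0 ∈ T then 1 else 0]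
  refine sum_congr rfl fun e _ => ?_
  simp [hh]

end Pool.Agent.R892.SE
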