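import Pool.Agent.R892.SE.Base

/-!
# Random Cayley graphs of `F_2 ^ m` with `C m` generators
-/

set_option autoImplicit false

open Finset
open scoped Classical

namespace Pool.Agent.R892.SE

/-- The vector space. -/
abbrev B (m : ℕ) := Fin m → ZMod 2

/-- Characters. -/
noncomputable def ch {m : ℕ} (a x : B m) : ℝ := if a ⬝ᵥ x = 0 then 1 else -1

theorem ch_comm {m : ℕ} (a x : B m) : ch a x = ch x a := by rw [ch, ch, dotProduct_comm]

theorem zmod2 (a : ZMod 2) : a = 0 ∨ a = 1 := by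
  revert a
  decide

theorem ch_add {m : ℕ} (a x y : B m) : ch a (x + y) = ch a x * ch a y := by
  simp only [ch, dotProduct_add]
  rcases zmod2 (a ⬝ᵥ x) with h | h <;> rcases zmod2 (a ⬝ᵥ y) with h' | h' <;>
    simp [h, h', show (1 : ZMod 2) + 1 = 0 from rfl]

theorem ch_zero {m : ℕ} (a : B m) : ch a 0 = 1 := by simp [ch]

theorem ch_sq {m : ℕ} (a x : B m) : ch a x * ch a x = 1 := by
  rw [ch]
  split_ifs <;> norm_num

theorem add_self {m : ℕ} (x : B m) : x + x = 0 := by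
  ext i
  exact CharTwo.add_self_eq_zero (x i)

theorem sum_ch {m : ℕ} (x : B m) : ∑ a : B m, ch a x = if x = 0 then (2 : ℝ) ^ m else 0 := by
  split_ifs with h
  · subst h
    simp only [ch_zero, sum_const, card_univ, nsmul_eq_mul, mul_one]
    rw [Fintype.card_fun, ZMod.card, Fintype.card_fin]
    push_cast
    rfl
  · obtain ⟨i, hi⟩ : ∃ i, x i ≠ 0 := by
      by_contra h0
      push Not at h0
      exact h (funext h0)
    have hi1 : x i = 1 := (zmod2 (x i)).resolve_left hi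
    have h1 : ∀ a : B m, ch (a + Pi.single i 1) x = -ch a x := by
      intro a
      rw [ch_comm, ch_add, ch_comm x a]
      have : ch x (Pi.single i 1) = -1 := by
        rw [ch, dotProduct_single, hi1, mul_one, if_neg one_ne_zero]
      rw [this]
      ring
    have h2 : ∑ a : B m, ch (a + Pi.single i 1) x = ∑ a : B m, ch a x :=
      Equiv.sum_comp (Equiv.addRight (Pi.single i 1)) fun a => ch a x
    rw [sum_congr rfl fun a _ => h1 a, sum_neg_distrib] at h2
    linarith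

theorem sum_ch' {m : ℕ} (a : B m) : ∑ x : B m, ch a x = if a = 0 then (2 : ℝ) ^ m else 0 := by
  rw [← sum_ch a]
  exact sum_congr rfl fun x _ => ch_comm _ _

/-- The Cayley graph. -/
def cay {m : ℕ} (S₀ : Finset (B m)) : SimpleGraph (B m) where
  Adj x y := x ≠ y ∧ x + y ∈ S₀
  symm := ⟨fun x y h => ⟨h.1.symm, by rw [add_comm]; exact h.2⟩⟩
  loopless := ⟨fun x h => h.1 rfl⟩

theorem cay_adj {m : ℕ} {S₀ : Finset (B m)} (h0 : (0 : B m) ∉ S₀) (x y : B m) :
    (cay S₀).Adj x y ↔ x + y ∈ S₀ := by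
  constructor
  · exact fun h => h.2
  · intro h
    refine ⟨?_, h⟩
    rintro rfl
    rw [add_self] at h
    exact h0 h

theorem cay_degree {m : ℕ} {S₀ : Finset (B m)} (h0 : (0 : B m) ∉ S₀) (x : B m) :
    (univ.filter fun y => (cay S₀).Adj x y).card = S₀.card := by
  refine card_bij (fun y _ => x + y) ?_ ?_ ?_
  · intro y hy
    exact (cay_adj h0 x y).1 (mem_filter.1 hy).2
  · intro a _ b _ h
    exact add_left_cancel h
  · intro s hs
    refine ⟨x + s, ?_, ?_⟩
    · rw [mem_filter, cay_adj h0]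
      refine ⟨mem_univ _, ?_⟩
      rw [← add_assoc, add_self, zero_add]
      exact hs
    · rw [← add_assoc, add_self, zero_add]

/-- The number of pairs of points of `S` with difference `s`. -/
theorem pairs_eq {m : ℕ} (S : Finset (B m)) (s : B m) :
    ∑ a : B m, (∑ x ∈ S, ch a x) ^ 2 * ch a s =
      (2 : ℝ) ^ m * ((S ×ˢ S).filter fun p => p.1 + p.2 = s).card := by
  have h1 : ∀ a : B m, (∑ x ∈ S, ch a x) ^ 2 * ch a s =
      ∑ p ∈ S ×ˢ S, ch a (p.1 + p.2 + s) := by
    intro a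
    rw [sq, sum_mul_sum, sum_product, sum_mul]
    refine sum_congr rfl fun x _ => ?_
    rw [sum_mul]
    refine sum_congr rfl fun y _ => ?_
    rw [ch_add, ch_add]
  rw [sum_congr rfl fun a _ => h1 a, sum_comm, sum_congr rfl fun p _ => sum_ch _, ← sum_filter,
    sum_const, nsmul_eq_mul, mul_comm]
  congr 3
  ext p
  rw [mem_filter, mem_filter]
  refine and_congr Iff.rfl ⟨fun h => ?_, fun h => ?_⟩
  · have := congrArg (fun z => z + s) h
    simpa [add_assoc, add_self] using this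
  · rw [h, add_self]

theorem expansion_of_bias {m : ℕ} {S₀ : Finset (B m)} (h0 : (0 : B m) ∉ S₀) {τ : ℝ} (hτ : 0 ≤ τ)
    (hb : ∀ a : B m, a ≠ 0 → ∑ s ∈ S₀, ch a s ≤ τ * S₀.card) (S : Finset (B m)) :
    (1 - τ - S.card / 2 ^ m) * (S₀.card * S.card) ≤ cut (cay S₀) S := by
  have h2m : (0 : ℝ) < 2 ^ m := by positivity
  -- the inner edges
  have hin : ∑ s ∈ S₀, ((2 : ℝ) ^ m * ((S ×ˢ S).filter fun p => p.1 + p.2 = s).card) ≤
      S₀.card * S.card ^ 2 + τ * S₀.card * (2 ^ m * S.card) := by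
    rw [sum_congr rfl fun s _ => (pairs_eq S s).symm, sum_comm]
    have h1 : ∀ a : B m, ∑ s ∈ S₀, (∑ x ∈ S, ch a x) ^ 2 * ch a s ≤
        (if a = 0 then (S₀.card : ℝ) * S.card ^ 2 else 0) +
          τ * S₀.card * (∑ x ∈ S, ch a x) ^ 2 := by
      intro a
      rw [← mul_sum]
      split_ifs with ha
      · subst ha
        have h2 : ∀ x : B m, ch 0 x = 1 := fun x => by rw [ch_comm]; exact ch_zero x
        simp only [h2, sum_const, nsmul_eq_mul, mul_one]
        have : 0 ≤ τ * (S₀.card : ℝ) * (S.card : ℝ) ^ 2 := by positivity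
        linarith
      · rw [zero_add, mul_comm (τ * _)]
        exact mul_le_mul_of_nonneg_left (hb a ha) (sq_nonneg _)
    refine (sum_le_sum fun a _ => h1 a).trans ?_
    rw [sum_add_distrib, ← mul_sum, sum_ite_eq' univ (0 : B m), if_pos (mem_univ _)]
    have h3 := pairs_eq S (0 : B m)
    simp only [ch_zero, mul_one] at h3
    rw [h3]
    have h4 : ((S ×ˢ S).filter fun p => p.1 + p.2 = 0).card = S.card := by
      have : (S ×ˢ S).filter (fun p => p.1 + p.2 = 0) = S.image fun x => (x, x) := by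
        ext ⟨x, y⟩
        simp only [mem_filter, mem_product, mem_image, Prod.mk.injEq]
        constructor
        · rintro ⟨⟨hx, hy⟩, hxy⟩
          refine ⟨x, hx, rfl, ?_⟩
          have := congrArg (fun z => z + y) hxy
          simpa [add_assoc, add_self] using this
        · rintro ⟨z, hz, rfl, rfl⟩
          exact ⟨⟨hz, hz⟩, add_self _⟩
      rw [this, card_image_of_injective _ fun a b h => (Prod.mk.inj h).1]
    rw [h4]
  -- all edges
  have hall : (cut (cay S₀) S : ℝ) + ∑ s ∈ S₀, (((S ×ˢ S).filter fun p => p.1 + p.2 = s).card : ℝ) =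
      S₀.card * S.card := by
    have h1 : cut (cay S₀) S + ((S ×ˢ S).filter fun p => p.1 + p.2 ∈ S₀).card =
        S₀.card * S.card := by
      have h2 : (univ.filter fun p : B m × B m => p.1 ∈ S ∧ p.1 + p.2 ∈ S₀).card =
          S₀.card * S.card := by
        rw [← card_product]
        refine card_bij (fun p _ => (p.1 + p.2, p.1)) ?_ ?_ ?_
        · intro p hp
          rw [mem_product]
          exact ⟨(mem_filter.1 hp).2.2, (mem_filter.1 hp).2.1⟩
        · rintro ⟨a, b⟩ _ ⟨a', b'⟩ _ h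
          simp only [Prod.mk.injEq] at h
          obtain ⟨h3, rfl⟩ := h
          rw [add_left_cancel h3]
        · rintro ⟨s, x⟩ hp
          rw [mem_product] at hp
          refine ⟨(x, x + s), ?_, ?_⟩
          · rw [mem_filter]
            refine ⟨mem_univ _, hp.2, ?_⟩
            rw [← add_assoc, add_self, zero_add]
            exact hp.1
          · simp [← add_assoc, add_self]
      rw [← h2, cut, ← card_union_of_disjoint]
      · congr 1
        ext p
        simp only [mem_union, mem_filter, mem_univ, true_and, mem_product, cay_adj h0]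
        tauto
      · rw [disjoint_left]
        intro p hp hp'
        simp only [mem_filter, mem_univ, true_and, mem_product] at hp hp'
        exact hp.2.1 hp'.1.2
    have h5 : ((S ×ˢ S).filter fun p => p.1 + p.2 ∈ S₀).card =
        ∑ s ∈ S₀, ((S ×ˢ S).filter fun p => p.1 + p.2 = s).card := by
      have h8 : Set.MapsTo (fun p : B m × B m => p.1 + p.2)
          ((S ×ˢ S).filter fun p => p.1 + p.2 ∈ S₀ : Finset (B m × B m)) S₀ := fun p hp =>
        (mem_filter.1 hp).2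
      rw [card_eq_sum_card_fiberwise h8]
      refine sum_congr rfl fun s hs => ?_
      congr 1
      ext p
      simp only [mem_filter]
      constructor
      · rintro ⟨⟨h6, _⟩, h7⟩
        exact ⟨h6, h7⟩
      · rintro ⟨h6, h7⟩
        exact ⟨⟨h6, by rw [h7]; exact hs⟩, h7⟩
    rw [h5] at h1
    exact_mod_cast h1
  rw [← mul_sum] at hin
  have h6 : ∑ s ∈ S₀, (((S ×ˢ S).filter fun p => p.1 + p.2 = s).card : ℝ) ≤
      S₀.card * S.card * (S.card / 2 ^ m) + τ * (S₀.card * S.card) := by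
    refine le_of_mul_le_mul_left ?_ h2m
    refine hin.trans (le_of_eq ?_)
    field_simp
  linarith

/-- The exponential moment. -/
theorem moment {m d : ℕ} (a : B m) (ha : a ≠ 0) (l : ℝ) :
    ∑ s : Fin d → B m, Real.exp (l * ∑ i, ch a (s i)) ≤
      (2 : ℝ) ^ (m * d) * Real.exp (l ^ 2 / 2 * d) := by
  have h1 : ∀ s : Fin d → B m, Real.exp (l * ∑ i, ch a (s i)) =
      ∏ i, Real.exp (l * ch a (s i)) := by
    intro s
    rw [mul_sum, Real.exp_sum]
  rw [sum_congr rfl fun s _ => h1 s]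
  have h2 : ∑ s : Fin d → B m, ∏ i, Real.exp (l * ch a (s i)) =
      ∏ _i : Fin d, ∑ x : B m, Real.exp (l * ch a x) := by
    rw [Finset.prod_univ_sum]
    simp
  rw [h2, prod_const, card_univ, Fintype.card_fin]
  have h3 : ∑ x : B m, Real.exp (l * ch a x) = 2 ^ m * Real.cosh l := by
    have h4 : ∀ x : B m, Real.exp (l * ch a x) = Real.cosh l + Real.sinh l * ch a x := by
      intro x
      rw [ch]
      split_ifs
      · rw [mul_one, mul_one, Real.cosh_add_sinh]
      · rw [mul_neg_one, mul_neg_one, ← sub_eq_add_neg, Real.cosh_sub_sinh]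
    rw [sum_congr rfl fun x _ => h4 x, sum_add_distrib, ← mul_sum, sum_ch', if_neg ha, mul_zero,
      add_zero, sum_const, card_univ, nsmul_eq_mul, Fintype.card_fun, ZMod.card, Fintype.card_fin]
    push_cast
    rfl
  rw [h3, mul_pow, ← pow_mul]
  refine mul_le_mul_of_nonneg_left ?_ (by positivity)
  calc Real.cosh l ^ d ≤ Real.exp (l ^ 2 / 2) ^ d :=
        pow_le_pow_left₀ (Real.cosh_pos l).le (Real.cosh_le_exp_half_sq l) d
    _ = Real.exp (l ^ 2 / 2 * d) := by rw [← Real.exp_nat_mul, mul_comm]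

theorem exists_gens {τ : ℝ} (hτ : 0 < τ) {m d : ℕ}
    (hd1 : ((m : ℝ) + 1) * Real.log 2 < τ ^ 2 / 2 * d) (hd2 : 2 * d ^ 2 ≤ 2 ^ m) :
    ∃ S₀ : Finset (B m), (0 : B m) ∉ S₀ ∧ S₀.card = d ∧
      ∀ a : B m, a ≠ 0 → ∑ s ∈ S₀, ch a s ≤ τ * S₀.card := by
  have hcard : Fintype.card {x : B m // x ≠ 0} = 2 ^ m - 1 := by
    rw [Fintype.card_subtype_compl, Fintype.card_fun, ZMod.card, Fintype.card_fin]
    simp
  have hE : (2 ^ m - 1 + 1 - d) ^ d ≤ Fintype.card (Fin d ↪ {x : B m // x ≠ 0}) := by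
    rw [Fintype.card_embedding_eq, hcard, Fintype.card_fin]
    exact Nat.pow_sub_le_descFactorial _ _
  have h2m : (0 : ℝ) < 2 ^ m := by positivity
  have hdle : d ≤ 2 ^ m := by nlinarith
  have hEr : (2 : ℝ) ^ (m * d) / 2 ≤ Fintype.card (Fin d ↪ {x : B m // x ≠ 0}) := by
    have h1 : ((2 ^ m - 1 + 1 - d : ℕ) : ℝ) = 2 ^ m * (1 + -(d / 2 ^ m)) := by
      have h2 : 2 ^ m - 1 + 1 - d = 2 ^ m - d := by
        have := Nat.one_le_two_pow (n := m)
        omega
      rw [h2, Nat.cast_sub hdle]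
      push_cast
      field_simp
      ring
    have h3 : (2 : ℝ) ^ (m * d) * (1 / 2) ≤ ((2 ^ m - 1 + 1 - d : ℕ) : ℝ) ^ d := by
      rw [h1, mul_pow, ← pow_mul]
      refine mul_le_mul_of_nonneg_left ?_ (by positivity)
      have hdr : (d : ℝ) ≤ 2 ^ m := by exact_mod_cast hdle
      have h4 : (d : ℝ) / 2 ^ m ≤ 1 := (div_le_one h2m).2 hdr
      refine le_trans ?_ (one_add_mul_le_pow (by linarith) d)
      have h5 : (d : ℝ) * (d / 2 ^ m) ≤ 1 / 2 := by
        rw [← mul_div_assoc, div_le_iff₀ h2m]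
        have : 2 * (d : ℝ) ^ 2 ≤ 2 ^ m := by exact_mod_cast hd2
        nlinarith
      linarith
    have h6 : (((2 ^ m - 1 + 1 - d : ℕ) : ℝ)) ^ d ≤
        Fintype.card (Fin d ↪ {x : B m // x ≠ 0}) := by exact_mod_cast hE
    linarith
  by_contra hcon
  push Not at hcon
  have hbad : ∀ e : Fin d ↪ {x : B m // x ≠ 0}, ∃ a : B m, a ≠ 0 ∧
      τ * d < ∑ i, ch a (e i : B m) := by
    intro e
    have hinj : Function.Injective fun i => (e i : B m) := fun i j h =>
      e.injective (Subtype.ext h)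
    obtain ⟨a, ha, hlt⟩ := hcon (univ.image fun i => (e i : B m))
      (by
        rw [mem_image]
        rintro ⟨i, _, hi⟩
        exact (e i).2 hi)
      (by rw [card_image_of_injective _ hinj, card_univ, Fintype.card_fin])
    refine ⟨a, ha, ?_⟩
    rw [card_image_of_injective _ hinj, card_univ, Fintype.card_fin,
      sum_image fun i _ j _ h => hinj h] at hlt
    exact hlt
  choose af haf hlt using hbad
  have h1 : (Fintype.card (Fin d ↪ {x : B m // x ≠ 0}) : ℝ) * Real.exp (τ * (τ * d)) ≤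
      (2 : ℝ) ^ m * ((2 : ℝ) ^ (m * d) * Real.exp (τ ^ 2 / 2 * d)) := by
    calc (Fintype.card (Fin d ↪ {x : B m // x ≠ 0}) : ℝ) * Real.exp (τ * (τ * d))
        = ∑ _e : Fin d ↪ {x : B m // x ≠ 0}, Real.exp (τ * (τ * d)) := by
          rw [sum_const, card_univ, nsmul_eq_mul]
      _ ≤ ∑ e : Fin d ↪ {x : B m // x ≠ 0}, ∑ a ∈ univ.filter fun a : B m => a ≠ 0,
            Real.exp (τ * ∑ i, ch a (e i : B m)) := by
          refine sum_le_sum fun e _ => ?_
          refine le_trans ?_ (single_le_sum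
            (f := fun a : B m => Real.exp (τ * ∑ i, ch a (e i : B m)))
            (fun a _ => (Real.exp_pos _).le) (mem_filter.2 ⟨mem_univ (af e), haf e⟩))
          rw [Real.exp_le_exp]
          exact mul_le_mul_of_nonneg_left (hlt e).le hτ.le
      _ = ∑ a ∈ univ.filter fun a : B m => a ≠ 0, ∑ e : Fin d ↪ {x : B m // x ≠ 0},
            Real.exp (τ * ∑ i, ch a (e i : B m)) := sum_comm
      _ ≤ ∑ a ∈ univ.filter fun a : B m => a ≠ 0,
            ((2 : ℝ) ^ (m * d) * Real.exp (τ ^ 2 / 2 * d)) := by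
          refine sum_le_sum fun a ha => ?_
          refine le_trans ?_ (moment (d := d) a (mem_filter.1 ha).2 τ)
          rw [← sum_image (s := univ) (g := fun e : Fin d ↪ {x : B m // x ≠ 0} =>
            fun i => (e i : B m)) (f := fun s : Fin d → B m => Real.exp (τ * ∑ i, ch a (s i)))]
          · exact sum_le_sum_of_subset_of_nonneg (subset_univ _) fun _ _ _ => (Real.exp_pos _).le
          · intro e _ e' _ h
            ext i
            exact congrFun (congrFun h i) _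
      _ ≤ (2 : ℝ) ^ m * ((2 : ℝ) ^ (m * d) * Real.exp (τ ^ 2 / 2 * d)) := by
          rw [sum_const, nsmul_eq_mul]
          refine mul_le_mul_of_nonneg_right ?_ (by positivity)
          have h7 : (univ.filter fun a : B m => a ≠ 0).card ≤ 2 ^ m := by
            refine (card_le_univ _).trans (le_of_eq ?_)
            rw [Fintype.card_fun, ZMod.card, Fintype.card_fin]
          exact_mod_cast h7
  have h2 : Real.exp (τ * (τ * d)) = Real.exp (τ ^ 2 / 2 * d) * Real.exp (τ ^ 2 / 2 * d) := by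
    rw [← Real.exp_add]
    congr 1
    ring
  have h3 : (2 : ℝ) ^ m * 2 < Real.exp (τ ^ 2 / 2 * d) := by
    have h4 : (2 : ℝ) ^ m * 2 = Real.exp (((m : ℝ) + 1) * Real.log 2) := by
      rw [← pow_succ, ← Real.rpow_natCast, Real.rpow_def_of_pos two_pos]
      push_cast
      ring_nf
    rw [h4, Real.exp_lt_exp]
    exact hd1
  rw [h2] at h1
  have hX : 0 < Real.exp (τ ^ 2 / 2 * d) := Real.exp_pos _
  have h5 : (Fintype.card (Fin d ↪ {x : B m // x ≠ 0}) : ℝ) * Real.exp (τ ^ 2 / 2 * d) ≤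
      (2 : ℝ) ^ m * (2 : ℝ) ^ (m * d) := by
    refine le_of_mul_le_mul_right ?_ hX
    calc _ = (Fintype.card (Fin d ↪ {x : B m // x ≠ 0}) : ℝ) *
          (Real.exp (τ ^ 2 / 2 * d) * Real.exp (τ ^ 2 / 2 * d)) := by ring
      _ ≤ _ := h1
      _ = _ := by ring
  have h6 : (2 : ℝ) ^ (m * d) / 2 * ((2 : ℝ) ^ m * 2) <
      (Fintype.card (Fin d ↪ {x : B m // x ≠ 0}) : ℝ) * Real.exp (τ ^ 2 / 2 * d) := by
    have hpos : (0 : ℝ) < (2 : ℝ) ^ (m * d) / 2 := by positivity
    calc (2 : ℝ) ^ (m * d) / 2 * ((2 : ℝ) ^ m * 2) <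
          (2 : ℝ) ^ (m * d) / 2 * Real.exp (τ ^ 2 / 2 * d) := mul_lt_mul_of_pos_left h3 hpos
      _ ≤ _ := mul_le_mul_of_nonneg_right hEr hX.le
  have h8 : (2 : ℝ) ^ (m * d) / 2 * ((2 : ℝ) ^ m * 2) = (2 : ℝ) ^ m * (2 : ℝ) ^ (m * d) := by ring
  linarith

/-- Cayley graphs of `F_2 ^ m` of degree `O(m)` in which all small sets have large expansion. -/
theorem sharp {η : ℝ} (hη : 0 < η) (hη1 : η ≤ 1) : ∃ m₀ : ℕ, ∀ m : ℕ, m₀ ≤ m →
    ∃ (d : ℕ) (S₀ : Finset (B m)), 0 < d ∧ (d : ℝ) ≤ 20 * m / η ^ 2 ∧ (0 : B m) ∉ S₀ ∧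
      S₀.card = d ∧ ∀ S : Finset (B m), (S.card : ℝ) ≤ η / 2 * 2 ^ m →
        (1 - η) * (d * S.card) ≤ cut (cay S₀) S := by
  have hlim : Filter.Tendsto (fun n : ℕ => (n : ℝ) ^ 2 / (2 : ℝ) ^ n) Filter.atTop (nhds 0) :=
    tendsto_pow_const_div_const_pow_of_one_lt 2 one_lt_two
  have hε : 0 < 1 / (2 * (20 / η ^ 2) ^ 2) := by positivity
  obtain ⟨m₀, hm₀⟩ := Filter.eventually_atTop.1 (hlim.eventually (gt_mem_nhds hε))
  refine ⟨max m₀ 1, fun m hm => ?_⟩
  have hm1 : 1 ≤ m := (le_max_right _ _).trans hm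
  have hmr : (1 : ℝ) ≤ m := by exact_mod_cast hm1
  have h1 := hm₀ m ((le_max_left _ _).trans hm)
  obtain ⟨τ, hτ⟩ : ∃ τ : ℝ, τ = η / 2 := ⟨_, rfl⟩
  have hτ0 : 0 < τ := by rw [hτ]; positivity
  obtain ⟨d, hd⟩ : ∃ d : ℕ, d = ⌈4 * m / τ ^ 2⌉₊ := ⟨_, rfl⟩
  have hd1 : 4 * m / τ ^ 2 ≤ d := by rw [hd]; exact Nat.le_ceil _
  have hd2 : (d : ℝ) ≤ 20 * m / η ^ 2 := by
    have h2 : (d : ℝ) < 4 * m / τ ^ 2 + 1 := by
      rw [hd]
      exact Nat.ceil_lt_add_one (by positivity)
    have h3 : 4 * (m : ℝ) / τ ^ 2 = 16 * m / η ^ 2 := by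
      rw [hτ]
      field_simp
      ring
    have h4 : (1 : ℝ) ≤ 4 * m / η ^ 2 := by
      rw [le_div_iff₀ (by positivity)]
      nlinarith
    have h5 : 20 * (m : ℝ) / η ^ 2 = 16 * m / η ^ 2 + 4 * m / η ^ 2 := by ring
    linarith
  have hd0 : 0 < d := by
    have : (0 : ℝ) < d := lt_of_lt_of_le (by positivity) hd1
    exact_mod_cast this
  have hgen1 : ((m : ℝ) + 1) * Real.log 2 < τ ^ 2 / 2 * d := by
    have h2 : 2 * (m : ℝ) ≤ τ ^ 2 / 2 * d := by
      rw [div_le_iff₀ (by positivity)] at hd1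
      linarith
    have h3 := Real.log_two_lt_d9
    have h4 : ((m : ℝ) + 1) * Real.log 2 ≤ ((m : ℝ) + 1) * 0.7 :=
      mul_le_mul_of_nonneg_left (by linarith) (by linarith)
    linarith
  have hgen2 : 2 * d ^ 2 ≤ 2 ^ m := by
    have h2 : 2 * (d : ℝ) ^ 2 ≤ 2 ^ m := by
      rw [div_lt_div_iff₀ (by positivity) (by positivity)] at h1
      have h3 : (d : ℝ) ^ 2 ≤ (20 * m / η ^ 2) ^ 2 :=
        pow_le_pow_left₀ (Nat.cast_nonneg _) hd2 2
      have h4 : (20 * (m : ℝ) / η ^ 2) ^ 2 = (m : ℝ) ^ 2 * (20 / η ^ 2) ^ 2 := by ring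
      linarith
    exact_mod_cast h2
  obtain ⟨S₀, h0, hc, hb⟩ := exists_gens hτ0 hgen1 hgen2
  refine ⟨d, S₀, hd0, hd2, h0, hc, fun S hS => ?_⟩
  refine le_trans ?_ (expansion_of_bias h0 hτ0.le hb S)
  rw [hc]
  refine mul_le_mul_of_nonneg_right ?_ (by positivity)
  have h6 : (S.card : ℝ) / 2 ^ m ≤ η / 2 := by
    rw [div_le_iff₀ (by positivity)]
    exact hS
  rw [hτ]
  linarith

end Pool.Agent.R892.SE
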